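import Pool.Agent.N352.PJ.Def

/-!
# PJ/ORB: orbits of the unipotent group (written by helper50)
-/

set_option autoImplicit false
set_option linter.unusedSectionVars false

open Polynomial Matrix
open scoped Classical

namespace Pool.Agent.N50.PJ

open Pool.Agent.N352.PJ hiding S_ORB

/-! ### The matrix `J` -/

section J

variable {g : ℕ} {R : Type} [CommRing R]

theorem Jm_apply (i j : Fin (2 * g + 1)) : Jm g R i j = if j = Fin.rev i then 1 else 0 := rfl

theorem J_mul (M : Mt g R) (i j : Fin (2 * g + 1)) : (Jm g R * M) i j = M (Fin.rev i) j := by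
  rw [Matrix.mul_apply, Finset.sum_eq_single (Fin.rev i)]
  · rw [Jm_apply, if_pos rfl, one_mul]
  · intro b _ hb
    rw [Jm_apply, if_neg hb, zero_mul]
  · intro h
    exact absurd (Finset.mem_univ _) h

theorem mul_J (M : Mt g R) (i j : Fin (2 * g + 1)) : (M * Jm g R) i j = M i (Fin.rev j) := by
  rw [Matrix.mul_apply, Finset.sum_eq_single (Fin.rev j)]
  · rw [Jm_apply, if_pos (Fin.rev_rev j).symm, mul_one]
  · intro b _ hb
    rw [Jm_apply, if_neg, mul_zero]
    intro h
    apply hb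
    rw [h, Fin.rev_rev]
  · intro h
    exact absurd (Finset.mem_univ _) h

theorem J_sq : Jm g R * Jm g R = 1 := by
  refine Matrix.ext fun i j => ?_
  rw [J_mul, Jm_apply, Fin.rev_rev, Matrix.one_apply]
  simp only [eq_comm]

theorem J_T : (Jm g R)ᵀ = Jm g R := by
  refine Matrix.ext fun i j => ?_
  rw [Matrix.transpose_apply, Jm_apply, Jm_apply]
  congr 1
  apply propext
  constructor
  · intro h; rw [h, Fin.rev_rev]
  · intro h; rw [h, Fin.rev_rev]

theorem JJ_mul (M : Mt g R) : Jm g R * (Jm g R * M) = M := by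
  rw [← Matrix.mul_assoc, J_sq, Matrix.one_mul]

end J

/-! ### The action -/

section act

variable {g : ℕ} {R : Type} [CommRing R] {u : Mt g R}

/-- the inverse of `uᵀ` -/
theorem P_mul (hu : u * Jm g R * uᵀ = Jm g R) :
    (Jm g R * u * Jm g R) * uᵀ = 1 := by
  rw [Matrix.mul_assoc, Matrix.mul_assoc, ← Matrix.mul_assoc u, hu, J_sq]

theorem mul_P (hu : u * Jm g R * uᵀ = Jm g R) : uᵀ * (Jm g R * u * Jm g R) = 1 :=
  mul_eq_one_comm.1 (P_mul hu)

theorem J_act (B : Mt g R) : Jm g R * (u * B * uᵀ) =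
    (Jm g R * u * Jm g R) * (Jm g R * B) * uᵀ := by
  simp only [Matrix.mul_assoc, JJ_mul]

theorem chp_act (hu : u * Jm g R * uᵀ = Jm g R) (B : Mt g R) : chp (u * B * uᵀ) = chp B := by
  unfold chp
  rw [J_act, Matrix.charpoly_mul_comm, ← Matrix.mul_assoc, mul_P hu, Matrix.one_mul]

theorem tr_act (hu : u * Jm g R * uᵀ = Jm g R) (B : Mt g R) :
    (Jm g R * (u * B * uᵀ)).trace = (Jm g R * B).trace := by
  rw [J_act, Matrix.trace_mul_comm, ← Matrix.mul_assoc, mul_P hu, Matrix.one_mul]

theorem symm_act {B : Mt g R} (hB : B.IsSymm) : (u * B * uᵀ).IsSymm := by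
  unfold Matrix.IsSymm at hB ⊢
  rw [Matrix.transpose_mul, Matrix.transpose_mul, Matrix.transpose_transpose, hB,
    Matrix.mul_assoc]

theorem pow_act (hu : u * Jm g R * uᵀ = Jm g R) (B : Mt g R) (m : ℕ) :
    (Jm g R * (u * B * uᵀ)) ^ m = (Jm g R * u * Jm g R) * (Jm g R * B) ^ m * uᵀ := by
  rw [J_act]
  induction m with
  | zero => rw [pow_zero, pow_zero, Matrix.mul_one, P_mul hu]
  | succ m ih =>
    rw [pow_succ, ih, pow_succ]
    have e := mul_P hu
    calc (Jm g R * u * Jm g R) * (Jm g R * B) ^ m * uᵀ *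
          ((Jm g R * u * Jm g R) * (Jm g R * B) * uᵀ)
        = (Jm g R * u * Jm g R) * (Jm g R * B) ^ m * (uᵀ * (Jm g R * u * Jm g R)) *
          (Jm g R * B) * uᵀ := by noncomm_ring
      _ = _ := by rw [e]; noncomm_ring

theorem form_act (hu : u * Jm g R * uᵀ = Jm g R) (B : Mt g R) (m : ℕ)
    (ξ : Fin (2 * g + 1) → R) :
    form (u * B * uᵀ) m ((Jm g R * u * Jm g R) *ᵥ ξ) = form B m ξ := by
  unfold form
  rw [pow_act hu]
  have e : Jm g R * (Jm g R * u * Jm g R * (Jm g R * B) ^ m * uᵀ) =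
      u * (Jm g R * (Jm g R * B) ^ m) * uᵀ := by
    simp only [Matrix.mul_assoc, JJ_mul]
  rw [e, Matrix.mulVec_mulVec]
  have e2 : u * (Jm g R * (Jm g R * B) ^ m) * uᵀ * (Jm g R * u * Jm g R) =
      u * (Jm g R * (Jm g R * B) ^ m) := by
    rw [Matrix.mul_assoc, mul_P hu, Matrix.mul_one]
  rw [e2]
  calc ((Jm g R * u * Jm g R) *ᵥ ξ) ⬝ᵥ ((u * (Jm g R * (Jm g R * B) ^ m)) *ᵥ ξ)
      = ((Jm g R * u * Jm g R) *ᵥ ξ) ⬝ᵥ (u *ᵥ ((Jm g R * (Jm g R * B) ^ m) *ᵥ ξ)) := by
        rw [Matrix.mulVec_mulVec ξ u]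
    _ = (uᵀ *ᵥ ((Jm g R * u * Jm g R) *ᵥ ξ)) ⬝ᵥ ((Jm g R * (Jm g R * B) ^ m) *ᵥ ξ) := by
        rw [Matrix.dotProduct_mulVec, Matrix.mulVec_transpose]
    _ = _ := by rw [Matrix.mulVec_mulVec ξ uᵀ, mul_P hu, Matrix.one_mulVec]

theorem dist_act {k : Type} [Field k] {u : Mt g k[X]} (hu : u * Jm g k[X] * uᵀ = Jm g k[X])
    {Q : k[X]} {B : Mt g k[X]} (h : DistMod Q B) : DistMod Q (u * B * uᵀ) := by
  obtain ⟨ξ, s, hs, h⟩ := h
  refine ⟨(Jm g k[X] * u * Jm g k[X]) *ᵥ ξ, s, hs, fun m hm => ?_⟩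
  rw [form_act hu]
  exact h m hm

end act

/-! ### Degrees -/

section deg

variable {g : ℕ} {k : Type} [Field k]

/-- degree at most `c + x i + y j` -/
def Bd (x y : Fin (2 * g + 1) → ℤ) (M : Mt g k[X]) : Prop :=
  ∀ i j, M i j = 0 ∨ ((M i j).natDegree : ℤ) ≤ x i + y j

theorem sum_bd {ι : Type} (s : Finset ι) (f : ι → k[X]) (c : ℤ)
    (h : ∀ i ∈ s, f i = 0 ∨ ((f i).natDegree : ℤ) ≤ c) :
    (∑ i ∈ s, f i) = 0 ∨ ((∑ i ∈ s, f i).natDegree : ℤ) ≤ c := by
  by_cases h0 : ∑ i ∈ s, f i = 0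
  · exact Or.inl h0
  right
  have hc : 0 ≤ c := by
    by_contra hc
    push Not at hc
    apply h0
    apply Finset.sum_eq_zero
    intro i hi
    rcases h i hi with h | h
    · exact h
    · have : (0 : ℤ) ≤ (f i).natDegree := Int.natCast_nonneg _
      omega
  have : (∑ i ∈ s, f i).natDegree ≤ c.toNat := by
    apply natDegree_sum_le_of_forall_le
    intro i hi
    rcases h i hi with h | h
    · rw [h, natDegree_zero]; exact Nat.zero_le _
    · omega
  omega

theorem mul_bd' {p q : k[X]} {a b : ℤ} (hp : p = 0 ∨ (p.natDegree : ℤ) ≤ a)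
    (hq : q = 0 ∨ (q.natDegree : ℤ) ≤ b) : p * q = 0 ∨ ((p * q).natDegree : ℤ) ≤ a + b := by
  rcases hp with hp | hp
  · left; rw [hp, zero_mul]
  rcases hq with hq | hq
  · left; rw [hq, mul_zero]
  right
  have : (p * q).natDegree ≤ p.natDegree + q.natDegree := natDegree_mul_le
  omega

theorem Bd.mul {x y z t : Fin (2 * g + 1) → ℤ} {M M' : Mt g k[X]} (h : Bd x y M) (h' : Bd z t M')
    (hyz : ∀ i, y i + z i = 0) : Bd x t (M * M') := by
  intro i j
  rw [Matrix.mul_apply]
  apply sum_bd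
  intro a _
  have := mul_bd' (h i a) (h' a j)
  rcases this with h1 | h1
  · exact Or.inl h1
  · right
    have := hyz a
    omega

theorem Bd.add {x y : Fin (2 * g + 1) → ℤ} {M M' : Mt g k[X]} (h : Bd x y M) (h' : Bd x y M') :
    Bd x y (M + M') := by
  intro i j
  have := sum_bd (Finset.univ : Finset (Fin 2)) ![M i j, M' i j] (x i + y j) (by
    intro a _
    fin_cases a
    · exact h i j
    · exact h' i j)
  rw [Fin.sum_univ_two] at this
  exact this

theorem Bd.one (x : Fin (2 * g + 1) → ℤ) : Bd x (fun i => - x i) (1 : Mt g k[X]) := by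
  intro i j
  by_cases h : i = j
  · right
    rw [h, Matrix.one_apply_eq, natDegree_one]
    simp
  · left
    rw [Matrix.one_apply_ne h]

theorem Bd.pow {x : Fin (2 * g + 1) → ℤ} {M : Mt g k[X]} (h : Bd x (fun i => - x i) M) (m : ℕ) :
    Bd x (fun i => - x i) (M ^ m) := by
  induction m with
  | zero => rw [pow_zero]; exact Bd.one x
  | succ m ih => rw [pow_succ]; exact ih.mul h (fun i => by ring)

theorem Bd.zero (x y : Fin (2 * g + 1) → ℤ) : Bd x y (0 : Mt g k[X]) := fun _ _ => Or.inl rfl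

theorem Bd.sum {x y : Fin (2 * g + 1) → ℤ} (m : ℕ) (M : ℕ → Mt g k[X]) (h : ∀ i, Bd x y (M i)) :
    Bd x y (∑ i ∈ Finset.range m, M i) := by
  induction m with
  | zero => rw [Finset.sum_range_zero]; exact Bd.zero x y
  | succ m ih => rw [Finset.sum_range_succ]; exact ih.add (h m)

theorem Bd.transpose {x y : Fin (2 * g + 1) → ℤ} {M : Mt g k[X]} (h : Bd x y M) :
    Bd y x Mᵀ := by
  intro i j
  rw [Matrix.transpose_apply, add_comm]
  exact h j i

end deg

/-! ### The Cayley transform -/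

section cay

variable {g : ℕ} {k : Type} [Field k]

/-- strictly lower triangular, with `A J` antisymmetric -/
structure Lie (w : Fin (2 * g + 1) → ℤ) (A : Mt g k[X]) : Prop where
  low : ∀ i j, i ≤ j → A i j = 0
  skew : ∀ i j, A i j = - A (Fin.rev j) (Fin.rev i)
  bd : Bd w (fun i => - w i) A

/-- `(1 - A)⁻¹` -/
noncomputable def geo (A : Mt g k[X]) : Mt g k[X] := ∑ m ∈ Finset.range (2 * g + 1), A ^ m

/-- the Cayley transform -/
noncomputable def cay (A : Mt g k[X]) : Mt g k[X] := (1 + A) * geo A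

variable {w : Fin (2 * g + 1) → ℤ} {A : Mt g k[X]}

theorem pow_low (h : ∀ i j, i ≤ j → A i j = 0) (m : ℕ) :
    ∀ i j : Fin (2 * g + 1), (i : ℕ) < j + m → (A ^ m) i j = 0 := by
  induction m with
  | zero =>
    intro i j hij
    rw [pow_zero, Matrix.one_apply_ne]
    intro h
    rw [h] at hij
    omega
  | succ m ih =>
    intro i j hij
    rw [pow_succ, Matrix.mul_apply]
    apply Finset.sum_eq_zero
    intro a _
    by_cases ha : (i : ℕ) < a + m
    · rw [ih i a ha, zero_mul]
    · rw [h a j, mul_zero]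
      rw [Fin.le_def]
      omega

theorem pow_top (h : ∀ i j, i ≤ j → A i j = 0) : A ^ (2 * g + 1) = 0 := by
  refine Matrix.ext fun i j => ?_
  rw [pow_low h _ i j (by have := i.2; omega)]
  rfl

theorem geo_mul (h : ∀ i j, i ≤ j → A i j = 0) : geo A * (1 - A) = 1 := by
  unfold geo
  rw [geom_sum_mul_neg, pow_top h, sub_zero]

theorem mul_geo (h : ∀ i j, i ≤ j → A i j = 0) : (1 - A) * geo A = 1 := by
  unfold geo
  rw [mul_neg_geom_sum, pow_top h, sub_zero]

theorem Lie.neg (h : Lie w A) : Lie w (-A) where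
  low := fun i j hij => by rw [Matrix.neg_apply, h.low i j hij, neg_zero]
  skew := fun i j => by rw [Matrix.neg_apply, Matrix.neg_apply, ← h.skew i j]
  bd := fun i j => by
    rw [Matrix.neg_apply, neg_eq_zero, natDegree_neg]
    exact h.bd i j

theorem Lie.J (h : Lie w A) : Jm g k[X] * Aᵀ = - A * Jm g k[X] := by
  refine Matrix.ext fun i j => ?_
  rw [J_mul, mul_J, Matrix.transpose_apply, Matrix.neg_apply, h.skew i (Fin.rev j),
    Fin.rev_rev, neg_neg]

theorem Lie.J_pow (h : Lie w A) (m : ℕ) : Jm g k[X] * (Aᵀ) ^ m = (- A) ^ m * Jm g k[X] := by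
  induction m with
  | zero => rw [pow_zero, pow_zero, Matrix.mul_one, Matrix.one_mul]
  | succ m ih =>
    rw [pow_succ, ← Matrix.mul_assoc, ih, Matrix.mul_assoc, h.J, ← Matrix.mul_assoc, pow_succ]

theorem Lie.J_geo (h : Lie w A) : Jm g k[X] * (geo A)ᵀ = geo (-A) * Jm g k[X] := by
  unfold geo
  rw [Matrix.transpose_sum, Finset.mul_sum, Finset.sum_mul]
  refine Finset.sum_congr rfl fun m _ => ?_
  rw [Matrix.transpose_pow, h.J_pow]

theorem geo_comm (A : Mt g k[X]) : Commute (geo A) A := by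
  unfold geo
  exact Commute.sum_left _ _ _ fun m _ => (Commute.refl A).pow_left m

theorem Lie.orth (h : Lie w A) : cay A * Jm g k[X] * (cay A)ᵀ = Jm g k[X] := by
  have h1 : Jm g k[X] * (cay A)ᵀ = geo (-A) * (1 - A) * Jm g k[X] := by
    unfold cay
    rw [Matrix.transpose_mul, ← Matrix.mul_assoc, h.J_geo, Matrix.mul_assoc,
      Matrix.transpose_add, Matrix.transpose_one, Matrix.mul_add, Matrix.mul_one, h.J]
    noncomm_ring
  have c1 : geo (-A) * (1 + A) = 1 := by
    have := geo_mul h.neg.low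
    rwa [sub_neg_eq_add] at this
  have c2 := geo_mul h.low
  have c3 : Commute (geo A) (1 + A) := (Commute.one_right _).add_right (geo_comm A)
  have c4 : Commute (geo (-A)) (1 - A) := by
    have := geo_comm (-A)
    exact (Commute.one_right _).sub_right ((Commute.neg_right_iff).1 this)
  rw [Matrix.mul_assoc, h1]
  unfold cay
  have c5 : Commute (geo (-A)) (1 + A) :=
    (Commute.one_right _).add_right ((Commute.neg_right_iff).1 (geo_comm (-A)))
  have c6 : Commute (geo A) (1 - A) := (Commute.one_right _).sub_right (geo_comm A)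
  calc (1 + A) * geo A * (geo (-A) * (1 - A) * Jm g k[X])
      = (geo A * (1 + A)) * ((1 - A) * geo (-A)) * Jm g k[X] := by
        rw [c3.eq, ← c4.eq]; noncomm_ring
    _ = (geo A * ((1 + A) * (1 - A)) * geo (-A)) * Jm g k[X] := by noncomm_ring
    _ = (geo A * ((1 - A) * (1 + A)) * geo (-A)) * Jm g k[X] := by
        congr 3; noncomm_ring
    _ = (geo A * (1 - A)) * ((1 + A) * geo (-A)) * Jm g k[X] := by noncomm_ring
    _ = Jm g k[X] := by rw [c2, ← c5.eq, c1, Matrix.one_mul, Matrix.one_mul]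

theorem Lie.cay_bd (h : Lie w A) : Bd w (fun i => - w i) (cay A) := by
  unfold cay
  refine ((Bd.one w).add h.bd).mul ?_ (fun i => by ring)
  exact Bd.sum _ _ fun m => h.bd.pow m

/-- the last basis vector -/
noncomputable def el (g : ℕ) (R : Type) [CommRing R] : Fin (2 * g + 1) → R :=
  Pi.single (Fin.last (2 * g)) 1

theorem A_el (h : ∀ i j, i ≤ j → A i j = 0) : A *ᵥ el g k[X] = 0 := by
  unfold el
  rw [Matrix.mulVec_single_one]
  funext i
  exact h i _ (Fin.le_last i)

theorem geo_el (h : ∀ i j, i ≤ j → A i j = 0) : geo A *ᵥ el g k[X] = el g k[X] := by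
  have h1 := mul_geo h
  have h2 := geo_mul h
  have h3 : (1 - A) *ᵥ el g k[X] = el g k[X] := by
    rw [Matrix.sub_mulVec, Matrix.one_mulVec, A_el h, sub_zero]
  calc geo A *ᵥ el g k[X] = geo A *ᵥ ((1 - A) *ᵥ el g k[X]) := by rw [h3]
    _ = el g k[X] := by rw [Matrix.mulVec_mulVec, h2, Matrix.one_mulVec]

theorem cay_el (h : ∀ i j, i ≤ j → A i j = 0) : cay A *ᵥ el g k[X] = el g k[X] := by
  unfold cay
  rw [← Matrix.mulVec_mulVec, geo_el h, Matrix.add_mulVec, Matrix.one_mulVec, A_el h, add_zero]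

/-- `(1 - A)(1 + A)⁻¹` is the inverse -/
theorem cay_neg (h : Lie w A) : cay (-A) * cay A = 1 := by
  have c1 : geo (-A) * (1 + A) = 1 := by
    have := geo_mul h.neg.low
    rwa [sub_neg_eq_add] at this
  have c2 := mul_geo h.low
  unfold cay
  calc (1 + -A) * geo (-A) * ((1 + A) * geo A) = (1 - A) * (geo (-A) * (1 + A)) * geo A := by
        noncomm_ring
    _ = 1 := by rw [c1, Matrix.mul_one, c2]

theorem cay_inj (h2 : (2 : k[X]) ≠ 0) {A' : Mt g k[X]} (h : ∀ i j, i ≤ j → A i j = 0)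
    (h' : ∀ i j, i ≤ j → A' i j = 0) (he : cay A = cay A') : A = A' := by
  have e1 : cay A * (1 - A) = 1 + A := by
    unfold cay
    rw [Matrix.mul_assoc, geo_mul h, Matrix.mul_one]
  have e2 : cay A * (1 - A') = 1 + A' := by
    rw [he]
    unfold cay
    rw [Matrix.mul_assoc, geo_mul h', Matrix.mul_one]
  -- `(u + 1) (A - A') = 0`
  have e3 : (cay A + 1) * (A - A') = 0 := by
    have : (cay A + 1) * (A - A') = (1 + A - cay A * (1 - A)) - (1 + A' - cay A * (1 - A')) := by
      noncomm_ring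
    rw [this, e1, e2]
    simp
  have e4 : (cay A + 1) * (1 - A) = (2 : k[X]) • (1 : Mt g k[X]) := by
    rw [Matrix.add_mul, e1, Matrix.one_mul, two_smul]
    abel
  have e5 : (cay A + 1) = (2 : k[X]) • geo A := by
    calc cay A + 1 = (cay A + 1) * ((1 - A) * geo A) := by rw [mul_geo h, Matrix.mul_one]
      _ = ((2 : k[X]) • (1 : Mt g k[X])) * geo A := by rw [← Matrix.mul_assoc, e4]
      _ = _ := by rw [Matrix.smul_mul, Matrix.one_mul]
  rw [e5, Matrix.smul_mul] at e3
  have e6 : (1 - A) * ((2 : k[X]) • (geo A * (A - A'))) = (2 : k[X]) • (A - A') := by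
    rw [Matrix.mul_smul, ← Matrix.mul_assoc, mul_geo h, Matrix.one_mul]
  rw [e3, Matrix.mul_zero] at e6
  have e7 := (smul_eq_zero.1 e6.symm).resolve_left h2
  exact sub_eq_zero.1 e7

end cay

/-! ### Freeness -/

section free

/-- an operator which commutes with an operator with irreducible characteristic polynomial and has
a kernel is zero -/
theorem comm_zero {n : ℕ} {K : Type} [Field K] (T M : Matrix (Fin n) (Fin n) K)
    (hT : Irreducible T.charpoly) (hc : M * T = T * M) {x : Fin n → K} (hx : x ≠ 0)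
    (hMx : M *ᵥ x = 0) : M = 0 := by
  -- the map `p ↦ p(T) x` on polynomials of degree `< n`
  obtain ⟨φ, hφ⟩ : ∃ φ : K[X] →ₗ[K] (Fin n → K), ∀ p, φ p = (aeval T p) *ᵥ x :=
    ⟨{ toFun := fun p => (aeval T p) *ᵥ x
       map_add' := fun p q => by rw [map_add, Matrix.add_mulVec]
       map_smul' := fun c p => by
        rw [map_smul, Matrix.smul_mulVec, RingHom.id_apply] }, fun _ => rfl⟩
  have hdeg : T.charpoly.natDegree = n := by
    rw [Matrix.charpoly_natDegree_eq_dim, Fintype.card_fin]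
  have hker : ∀ p : K[X], φ p = 0 → T.charpoly ∣ p := by
    intro p hp
    by_contra hnd
    have hcop : IsCoprime T.charpoly p := (hT.coprime_iff_not_dvd).2 hnd
    obtain ⟨a, b, hab⟩ := hcop
    have h1 : (aeval T (a * T.charpoly + b * p)) *ᵥ x = x := by
      rw [hab, map_one, Matrix.one_mulVec]
    rw [map_add, map_mul, map_mul, Matrix.aeval_self_charpoly, mul_zero, zero_add,
      ← Matrix.mulVec_mulVec, ← hφ p, hp, Matrix.mulVec_zero] at h1
    exact hx h1.symm
  obtain ⟨ψ, hψ⟩ : ∃ ψ : degreeLT K n →ₗ[K] (Fin n → K), ∀ p, ψ p = φ p.1 :=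
    ⟨φ.comp (degreeLT K n).subtype, fun _ => rfl⟩
  have hinj : Function.Injective ψ := by
    rw [← LinearMap.ker_eq_bot, LinearMap.ker_eq_bot']
    intro p hp
    rw [hψ] at hp
    have hd := hker _ hp
    apply Subtype.ext
    by_contra hne
    have hp2 := p.2
    rw [mem_degreeLT] at hp2
    have h3 : (p : K[X]) ≠ 0 := hne
    have h4 := natDegree_le_of_dvd hd h3
    rw [hdeg] at h4
    rw [degree_eq_natDegree h3] at hp2
    have : (p : K[X]).natDegree < n := by exact_mod_cast hp2
    omega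
  have hfr : Module.finrank K (degreeLT K n) = Module.finrank K (Fin n → K) :=
    LinearEquiv.finrank_eq (degreeLTEquiv K n)
  have : FiniteDimensional K (degreeLT K n) :=
    Module.Finite.equiv (degreeLTEquiv K n).symm
  have hsurj := (LinearMap.injective_iff_surjective_of_finrank_eq_finrank hfr).1 hinj
  have hMp : ∀ p : K[X], M * aeval T p = aeval T p * M := by
    intro p
    have hc' : Commute M T := hc
    induction p using Polynomial.induction_on' with
    | add p q hp hq => rw [map_add, mul_add, add_mul, hp, hq]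
    | monomial n a =>
      rw [aeval_monomial, ← mul_assoc, ← Algebra.commutes, mul_assoc, (hc'.pow_right n).eq,
        ← mul_assoc]
  have hz : ∀ y, M *ᵥ y = 0 := by
    intro y
    obtain ⟨p, rfl⟩ := hsurj y
    rw [hψ, hφ, Matrix.mulVec_mulVec, hMp, ← Matrix.mulVec_mulVec, hMx, Matrix.mulVec_zero]
  refine Matrix.ext fun i j => ?_
  have := congrFun (hz (Pi.single j 1)) i
  rw [Matrix.mulVec_single_one] at this
  exact this

variable {g : ℕ} {k : Type} [Field k]

theorem free_aux {v B : Mt g k[X]} (hirr : Irreducible (chp B)) (hv : v * Jm g k[X] * vᵀ = Jm g k[X])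
    (hel : v *ᵥ el g k[X] = el g k[X]) (hB : v * B * vᵀ = B) : v = 1 := by
  obtain ⟨T, hT⟩ : ∃ T : Mt g k[X], T = Jm g k[X] * B := ⟨_, rfl⟩
  obtain ⟨P, hP⟩ : ∃ P : Mt g k[X], P = Jm g k[X] * v * Jm g k[X] := ⟨_, rfl⟩
  have hPv : vᵀ * P = 1 := by rw [hP]; exact mul_P hv
  have hPT : P * T = T * P := by
    have h1 : T = P * T * vᵀ := by
      conv_lhs => rw [hT, ← hB, J_act]
      rw [hP, hT]
    calc P * T = P * T * (vᵀ * P) := by rw [hPv, Matrix.mul_one]
      _ = (P * T * vᵀ) * P := by rw [Matrix.mul_assoc, Matrix.mul_assoc, Matrix.mul_assoc]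
      _ = T * P := by rw [← h1]
  -- pass to the field of fractions
  let K := FractionRing k[X]
  let ι : k[X] →+* K := algebraMap k[X] K
  have hι : Function.Injective ι := IsFractionRing.injective k[X] K
  have hch : (T.map ι).charpoly = (chp B).map ι := by
    rw [Matrix.charpoly_map, hT]
    rfl
  have hmon : (chp B).Monic := Matrix.charpoly_monic _
  have hirr' : Irreducible (T.map ι).charpoly := by
    rw [hch]
    exact (hmon.irreducible_iff_irreducible_map_fraction_map).1 hirr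
  have hM0 : (P - 1).map ι = 0 := by
    refine comm_zero (T.map ι) ((P - 1).map ι) hirr' ?_ (x := fun i => ι ((Jm g k[X] *ᵥ
      el g k[X]) i)) ?_ ?_
    · rw [← Matrix.map_mul, ← Matrix.map_mul]
      congr 1
      rw [Matrix.sub_mul, Matrix.mul_sub, hPT, Matrix.one_mul, Matrix.mul_one]
    · intro h
      have h0 : Jm g k[X] *ᵥ el g k[X] = 0 := by
        funext i
        apply hι
        rw [Pi.zero_apply, map_zero]
        exact congrFun h i
      have h1 : Jm g k[X] *ᵥ (Jm g k[X] *ᵥ el g k[X]) = 0 := by rw [h0, Matrix.mulVec_zero]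
      rw [Matrix.mulVec_mulVec, J_sq, Matrix.one_mulVec] at h1
      have h2 := congrFun h1 (Fin.last (2 * g))
      unfold el at h2
      rw [Pi.single_eq_same] at h2
      exact one_ne_zero h2
    · have h3 : (P - 1) *ᵥ (Jm g k[X] *ᵥ el g k[X]) = 0 := by
        rw [Matrix.sub_mulVec, Matrix.one_mulVec, Matrix.mulVec_mulVec]
        have : P * Jm g k[X] = Jm g k[X] * v := by
          rw [hP, Matrix.mul_assoc, J_sq, Matrix.mul_one]
        rw [this, ← Matrix.mulVec_mulVec, hel, sub_self]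
      funext i
      have h4 := congrFun h3 i
      have h5 := congrArg ι h4
      rw [Pi.zero_apply, map_zero] at h5
      rw [Pi.zero_apply, ← h5]
      simp only [Matrix.mulVec, dotProduct, Matrix.map_apply, map_sum, map_mul]
  have hP1 : P = 1 := by
    rw [← sub_eq_zero]
    refine Matrix.ext fun i j => ?_
    apply hι
    have := congrFun (congrFun hM0 i) j
    rw [Matrix.map_apply] at this
    rw [this, Matrix.zero_apply, Matrix.zero_apply, map_zero]
  have hv1 : v = Jm g k[X] * P * Jm g k[X] := by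
    rw [hP]
    simp only [Matrix.mul_assoc, J_sq, JJ_mul, Matrix.mul_one]
  rw [hv1, hP1, Matrix.mul_one, J_sq]

theorem free {w : Fin (2 * g + 1) → ℤ} {A A' B : Mt g k[X]} (h2 : (2 : k[X]) ≠ 0)
    (hirr : Irreducible (chp B)) (hA : Lie w A) (hA' : Lie w A')
    (he : cay A * B * (cay A)ᵀ = cay A' * B * (cay A')ᵀ) : A = A' := by
  obtain ⟨v, hv⟩ : ∃ v : Mt g k[X], v = cay (-A') * cay A := ⟨_, rfl⟩
  have hinv := cay_neg hA'
  have hinvT : (cay A')ᵀ * (cay (-A'))ᵀ = 1 := by
    rw [← Matrix.transpose_mul, hinv, Matrix.transpose_one]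
  have hv1 : v = 1 := by
    apply free_aux hirr
    · rw [hv, Matrix.transpose_mul]
      calc cay (-A') * cay A * Jm g k[X] * ((cay A)ᵀ * (cay (-A'))ᵀ)
          = cay (-A') * (cay A * Jm g k[X] * (cay A)ᵀ) * (cay (-A'))ᵀ := by
            simp only [Matrix.mul_assoc]
        _ = _ := by rw [hA.orth, hA'.neg.orth]
    · rw [hv, ← Matrix.mulVec_mulVec, cay_el hA.low, cay_el hA'.neg.low]
    · rw [hv, Matrix.transpose_mul]
      calc cay (-A') * cay A * B * ((cay A)ᵀ * (cay (-A'))ᵀ)
          = cay (-A') * (cay A * B * (cay A)ᵀ) * (cay (-A'))ᵀ := by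
            simp only [Matrix.mul_assoc]
        _ = cay (-A') * (cay A' * B * (cay A')ᵀ) * (cay (-A'))ᵀ := by rw [he]
        _ = (cay (-A') * cay A') * B * ((cay A')ᵀ * (cay (-A'))ᵀ) := by
            simp only [Matrix.mul_assoc]
        _ = B := by rw [hinv, hinvT, Matrix.one_mul, Matrix.mul_one]
  apply cay_inj h2 hA.low hA'.low
  have h5 : cay A' * cay (-A') = 1 := mul_eq_one_comm.1 hinv
  calc cay A = (cay A' * cay (-A')) * cay A := by rw [h5, Matrix.one_mul]
    _ = cay A' * v := by rw [hv, Matrix.mul_assoc]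
    _ = cay A' := by rw [hv1, Matrix.mul_one]

end free

/-! ### The count -/

section count

variable {g : ℕ} {k : Type} [Field k]

/-- the free entries -/
abbrev Ix (g : ℕ) : Type := {p : Fin (2 * g + 1) × Fin (2 * g + 1) //
  p ∈ (Finset.univ : Finset (Fin (2 * g + 1) × Fin (2 * g + 1))).filter
    (fun p => p.1 < p.2 ∧ (p.1 : ℕ) + p.2 < 2 * g)}

/-- the parameters -/
abbrev Par (k : Type) [Field k] (g : ℕ) (w : Fin (2 * g + 1) → ℤ) : Type :=
  ∀ p : Ix g, degreeLT k ((w p.1.2 - w p.1.1 + 1).toNat)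

/-- the entry `(i, a)` -/
noncomputable def ent {w : Fin (2 * g + 1) → ℤ} (c : Par k g w) (a i : Fin (2 * g + 1)) : k[X] :=
  if h : (a, i) ∈ (Finset.univ : Finset (Fin (2 * g + 1) × Fin (2 * g + 1))).filter
    (fun p => p.1 < p.2 ∧ (p.1 : ℕ) + p.2 < 2 * g) then (c ⟨(a, i), h⟩ : k[X]) else 0

/-- the matrix -/
noncomputable def mat {w : Fin (2 * g + 1) → ℤ} (c : Par k g w) : Mt g k[X] :=
  Matrix.of fun i a => ent c a i - ent c (Fin.rev i) (Fin.rev a)

theorem ent_of_not {w : Fin (2 * g + 1) → ℤ} (c : Par k g w) {a i : Fin (2 * g + 1)}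
    (h : ¬ (a < i ∧ (a : ℕ) + i < 2 * g)) : ent c a i = 0 := by
  unfold ent
  rw [dif_neg]
  intro h'
  rw [Finset.mem_filter] at h'
  exact h h'.2

theorem ent_bd {w : Fin (2 * g + 1) → ℤ} (c : Par k g w) (a i : Fin (2 * g + 1)) :
    ent c a i = 0 ∨ ((ent c a i).natDegree : ℤ) ≤ w i - w a := by
  unfold ent
  split_ifs with h
  · by_cases h0 : (c ⟨(a, i), h⟩ : k[X]) = 0
    · exact Or.inl h0
    · right
      have h1 := (c ⟨(a, i), h⟩).2
      rw [mem_degreeLT, degree_eq_natDegree h0] at h1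
      have h2 : (c ⟨(a, i), h⟩ : k[X]).natDegree < (w i - w a + 1).toNat := by
        exact_mod_cast h1
      omega
  · exact Or.inl rfl

theorem mat_lie {w : Fin (2 * g + 1) → ℤ} (hw : Typ g w) (c : Par k g w) : Lie w (mat c) where
  low := fun i j hij => by
    show ent c j i - ent c (Fin.rev i) (Fin.rev j) = 0
    rw [ent_of_not c (fun h => absurd h.1 (not_lt.2 hij)), ent_of_not c (fun h => by
      have := h.1
      rw [Fin.rev_lt_rev] at this
      exact absurd this (not_lt.2 hij)), sub_zero]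
  skew := fun i j => by
    show ent c j i - ent c (Fin.rev i) (Fin.rev j) =
      - (ent c (Fin.rev i) (Fin.rev j) - ent c (Fin.rev (Fin.rev j)) (Fin.rev (Fin.rev i)))
    rw [Fin.rev_rev, Fin.rev_rev]
    ring
  bd := fun i j => by
    have e : mat c i j = ent c j i + (- ent c (Fin.rev i) (Fin.rev j)) := sub_eq_add_neg _ _
    rw [e]
    have := sum_bd (Finset.univ : Finset (Fin 2))
      ![ent c j i, - ent c (Fin.rev i) (Fin.rev j)] (w i + - w j) (by
      intro a _
      fin_cases a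
      · have := ent_bd c j i
        rcases this with h | h
        · exact Or.inl h
        · right
          show ((ent c j i).natDegree : ℤ) ≤ _
          omega
      · have := ent_bd c (Fin.rev i) (Fin.rev j)
        rcases this with h | h
        · left
          show - ent c (Fin.rev i) (Fin.rev j) = 0
          rw [h, neg_zero]
        · right
          show ((- ent c (Fin.rev i) (Fin.rev j)).natDegree : ℤ) ≤ _
          rw [natDegree_neg]
          rw [hw.anti i, hw.anti j] at h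
          omega)
    rw [Fin.sum_univ_two] at this
    exact this

theorem mat_inj {w : Fin (2 * g + 1) → ℤ} {c c' : Par k g w} (h : mat c = mat c') : c = c' := by
  funext p
  obtain ⟨⟨a, i⟩, hp⟩ := p
  have hp' := hp
  rw [Finset.mem_filter] at hp'
  obtain ⟨-, h1, h2⟩ := hp'
  have e : ∀ c : Par k g w, mat c i a = c ⟨(a, i), hp⟩ := by
    intro c
    show ent c a i - ent c (Fin.rev i) (Fin.rev a) = _
    rw [ent_of_not c (a := Fin.rev i) (i := Fin.rev a) (fun h => by
      have h3 := h.2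
      rw [Fin.val_rev, Fin.val_rev] at h3
      simp only at h2
      omega), sub_zero]
    unfold ent
    rw [dif_pos hp]
  apply Subtype.ext
  rw [← e c, ← e c', h]

theorem card_lt [Finite k] (n : ℕ) : Nat.card (degreeLT k n) = Nat.card k ^ n := by
  rw [Nat.card_congr (degreeLTEquiv k n).toEquiv, Nat.card_fun, Nat.card_fin]

theorem card_par [Finite k] (w : Fin (2 * g + 1) → ℤ) :
    Nat.card (Par k g w) = Nat.card k ^ uu g w := by
  rw [Nat.card_pi]
  rw [Finset.prod_congr rfl fun p _ => card_lt (k := k) ((w p.1.2 - w p.1.1 + 1).toNat)]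
  rw [Finset.prod_pow_eq_pow_sum]
  congr 1
  unfold uu
  exact Finset.sum_coe_sort ((Finset.univ : Finset (Fin (2 * g + 1) × Fin (2 * g + 1))).filter
    (fun p => p.1 < p.2 ∧ (p.1 : ℕ) + p.2 < 2 * g)) (fun p => (w p.2 - w p.1 + 1).toNat)

theorem fin_nd [Finite k] (n : ℕ) : {p : k[X] | p.natDegree ≤ n}.Finite := by
  have h1 : Finite (degreeLT k (n + 1)) :=
    Finite.of_equiv _ (degreeLTEquiv k (n + 1)).toEquiv.symm
  refine Set.Finite.subset (Set.toFinite ((degreeLT k (n + 1) : Submodule k k[X]) : Set k[X])) ?_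
  intro p hp
  rw [SetLike.mem_coe, mem_degreeLT]
  refine lt_of_le_of_lt (degree_le_of_natDegree_le hp) ?_
  exact_mod_cast Nat.lt_succ_self n

theorem fin_X [Finite k] (S : Finset k[X]) (h : k[X] → k[X][X]) (N : ℕ)
    (w : Fin (2 * g + 1) → ℤ) : {B : Mt g k[X] | Xset g N w S h B}.Finite := by
  have h1 : {B : Fin (2 * g + 1) → Fin (2 * g + 1) → k[X] | ∀ i,
      B i ∈ {b : Fin (2 * g + 1) → k[X] | ∀ j, b j ∈
        {p : k[X] | p.natDegree ≤ (2 * N + w i + w j).toNat}}}.Finite :=
    Set.Finite.pi' fun i => Set.Finite.pi' fun j => fin_nd _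
  refine h1.subset ?_
  intro B hB i j
  rcases hB.box i j with h | h
  · show (B i j).natDegree ≤ _
    rw [h, natDegree_zero]
    exact Nat.zero_le _
  · show (B i j).natDegree ≤ _
    omega

theorem X_act {S : Finset k[X]} {h : k[X] → k[X][X]} {N : ℕ} {w : Fin (2 * g + 1) → ℤ}
    {B A : Mt g k[X]} (hB : Xset g N w S h B) (hA : Lie w A) :
    Xset g N w S h (cay A * B * (cay A)ᵀ) where
  symm := symm_act hB.symm
  tr := by rw [tr_act hA.orth]; exact hB.tr
  box := by
    have h1 : Bd (fun i => 2 * N + w i) w B := fun i j => hB.box i j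
    have h2 : Bd (fun i => 2 * N + w i) (fun i => - w i) (cay A) → True := fun _ => trivial
    have h3 : Bd w (fun i => 2 * N - w i) (cay A) → True := fun _ => trivial
    intro i j
    have hb := hA.cay_bd
    have h4 : Bd w (fun i => - w i) (cay A) := hb
    have h5 : Bd (fun i => - w i) w (cay A)ᵀ := hb.transpose
    have h6 : Bd w (fun j => 2 * N + w j) (cay A * B) :=
      h4.mul (z := w) (t := fun j => 2 * N + w j) (fun i j => by
        rcases hB.box i j with h | h
        · exact Or.inl h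
        · right
          show ((B i j).natDegree : ℤ) ≤ w i + (2 * N + w j)
          omega) (fun i => by ring)
    have h7 := sum_bd Finset.univ (fun a => (cay A * B) i a * (cay A)ᵀ a j) (2 * N + w i + w j)
      (by
        intro a _
        rcases mul_bd' (h6 i a) (h5 a j) with h | h
        · exact Or.inl h
        · right
          refine h.trans (le_of_eq ?_)
          ring)
    rw [Matrix.mul_apply]
    exact h7
  con := fun Q hQ => by rw [chp_act hA.orth]; exact hB.con Q hQ
  dist := fun Q hQ => dist_act hA.orth (hB.dist Q hQ)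

end count

/-- PJ/ORB -/
theorem orb : Pool.Agent.N352.PJ.S_ORB := by
  intro g k _ _ h2 S h N w hw
  have h20 : (2 : k[X]) ≠ 0 := by
    intro h
    apply h2
    have h9 := congrArg (fun q : k[X] => q.coeff 0) h
    simpa using h9
  have hfin : Finite {B : Mt g k[X] | Xset g N w S h B} := (fin_X S h N w).to_subtype
  rw [← card_par (k := k) w, ← Nat.card_coe_set_eq, ← Nat.card_prod, ← Nat.card_coe_set_eq]
  have hch : ∀ f : {f : k[X][X] | Irreducible f ∧ ∃ B : Mt g k[X], Xset g N w S h B ∧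
      chp B = f}, ∃ B : Mt g k[X], Xset g N w S h B ∧ chp B = f.1 := fun f => f.2.2
  choose B hB1 hB2 using hch
  refine Nat.card_le_card_of_injective (fun z => (⟨cay (mat z.2) * B z.1 * (cay (mat z.2))ᵀ,
    X_act (hB1 z.1) (mat_lie hw z.2)⟩ : {B : Mt g k[X] | Xset g N w S h B})) ?_
  rintro ⟨f, c⟩ ⟨f', c'⟩ he
  have h5 : cay (mat c) * B f * (cay (mat c))ᵀ = cay (mat c') * B f' * (cay (mat c'))ᵀ :=
    congrArg Subtype.val he
  have h6 : f = f' := by
    apply Subtype.ext
    rw [← hB2 f, ← hB2 f', ← chp_act (mat_lie hw c).orth (B f),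
      ← chp_act (mat_lie hw c').orth (B f'), h5]
  subst h6
  have h7 := free h20 (by rw [hB2 f]; exact f.2.1) (mat_lie hw c) (mat_lie hw c') h5
  rw [mat_inj h7]

end Pool.Agent.N50.PJ
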