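import Pool.Agent.N352.PJ.Lat

/-!
# PJ/RED: reduction of matrices over `k[X]` with weights (written by helper50)
-/

set_option autoImplicit false

namespace Pool.Agent.N50.PJ

open Polynomial Matrix
open Pool.Agent.N352.PJ (wtn S_RED)

section
variable {k : Type} [Field k] {n : ℕ}

theorem wtn_le {d : Fin n → ℕ} {v : Fin n → k[X]} {m : ℕ} :
    wtn d v ≤ m ↔ ∀ j, v j ≠ 0 → (v j).natDegree + d j ≤ m := by
  unfold wtn
  rw [Finset.sup_le_iff]
  constructor
  · intro h j hj
    have := h j (Finset.mem_univ j)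
    rwa [if_neg hj] at this
  · intro h j _
    split_ifs with hj
    · exact Nat.zero_le _
    · exact h j hj

theorem wtn_lt {d : Fin n → ℕ} {v : Fin n → k[X]} {m : ℕ} (hm : 0 < m)
    (h : ∀ j, v j ≠ 0 → (v j).natDegree + d j < m) : wtn d v < m := by
  have : wtn d v ≤ m - 1 := wtn_le.2 fun j hj => by have := h j hj; omega
  omega

theorem le_wtn (d : Fin n → ℕ) (v : Fin n → k[X]) (j : Fin n) (hj : v j ≠ 0) :
    (v j).natDegree + d j ≤ wtn d v := wtn_le.1 le_rfl j hj

theorem deg_le (d : Fin n → ℕ) (v : Fin n → k[X]) (j : Fin n) :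
    (v j * X ^ d j).natDegree ≤ wtn d v := by
  by_cases hj : v j = 0
  · rw [hj, zero_mul, natDegree_zero]; exact Nat.zero_le _
  · rw [natDegree_mul hj (pow_ne_zero _ X_ne_zero), natDegree_X_pow]
    exact le_wtn d v j hj

/-- the leading coefficient of a product -/
theorem coeff_prod_le {ι : Type} (s : Finset ι) (f : ι → k[X]) (m : ι → ℕ)
    (h : ∀ i ∈ s, (f i).natDegree ≤ m i) :
    (∏ i ∈ s, f i).natDegree ≤ ∑ i ∈ s, m i ∧
      (∏ i ∈ s, f i).coeff (∑ i ∈ s, m i) = ∏ i ∈ s, (f i).coeff (m i) := by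
  classical
  induction s using Finset.induction_on with
  | empty => simp
  | insert a s ha ih =>
    obtain ⟨i1, i2⟩ := ih fun i hi => h i (Finset.mem_insert_of_mem hi)
    have ha' := h a (Finset.mem_insert_self a s)
    rw [Finset.prod_insert ha, Finset.sum_insert ha, Finset.prod_insert ha]
    refine ⟨natDegree_mul_le_of_le ha' i1, ?_⟩
    rw [coeff_mul_add_eq_of_natDegree_le ha' i1, i2]

theorem det_coeff (F : Matrix (Fin n) (Fin n) k[X]) (W : Fin n → ℕ)
    (h : ∀ i j, (F i j).natDegree ≤ W i) :
    F.det.natDegree ≤ ∑ i, W i ∧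
      F.det.coeff (∑ i, W i) = (Matrix.of fun i j => (F i j).coeff (W i)).det := by
  have hs : ∀ σ : Equiv.Perm (Fin n), ∑ i, W (σ i) = ∑ i, W i := fun σ => Equiv.sum_comp σ W
  have hp : ∀ σ : Equiv.Perm (Fin n), (∏ i, F (σ i) i).natDegree ≤ ∑ i, W i ∧
      (∏ i, F (σ i) i).coeff (∑ i, W i) = ∏ i, (F (σ i) i).coeff (W (σ i)) := by
    intro σ
    have := coeff_prod_le Finset.univ (fun i => F (σ i) i) (fun i => W (σ i))
      (fun i _ => h (σ i) i)
    rw [hs σ] at this
    exact this
  have hsg : ∀ σ : Equiv.Perm (Fin n), ((Equiv.Perm.sign σ : ℤ) : k[X]) =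
      C ((Equiv.Perm.sign σ : ℤ) : k) := fun σ => by simp
  constructor
  · rw [det_apply']
    apply natDegree_sum_le_of_forall_le
    intro σ _
    rw [hsg]
    exact (natDegree_C_mul_le _ _).trans (hp σ).1
  · rw [det_apply', det_apply', finsetSum_coeff]
    refine Finset.sum_congr rfl fun σ _ => ?_
    rw [hsg, coeff_C_mul, (hp σ).2]
    simp

theorem det_mul_X (F : Matrix (Fin n) (Fin n) k[X]) (d : Fin n → ℕ) :
    (Matrix.of fun i j => F i j * X ^ d j : Matrix (Fin n) (Fin n) k[X]).det =
      F.det * X ^ (∑ j, d j) := by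
  have : (Matrix.of fun i j => F i j * X ^ d j : Matrix (Fin n) (Fin n) k[X]) =
      F * Matrix.diagonal fun j => (X : k[X]) ^ d j := by
    ext i j
    simp [Matrix.mul_diagonal]
  rw [this, det_mul, det_diagonal, Finset.prod_pow_eq_pow_sum]

theorem min_step (d : Fin n → ℕ) (E U : Matrix (Fin n) (Fin n) k[X]) (hE : E.det ≠ 0)
    (hU : IsUnit U.det)
    (hmin : ∀ V : Matrix (Fin n) (Fin n) k[X], IsUnit V.det →
      ∑ i, wtn d ((U * E) i) ≤ ∑ i, wtn d ((V * E) i)) :
    ∑ i, wtn d ((U * E) i) = E.det.natDegree + ∑ j, d j := by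
  classical
  obtain ⟨F, hF⟩ : ∃ F, F = U * E := ⟨_, rfl⟩
  obtain ⟨W, hW⟩ : ∃ W : Fin n → ℕ, W = fun i => wtn d (F i) := ⟨_, rfl⟩
  obtain ⟨F', hF'⟩ : ∃ F' : Matrix (Fin n) (Fin n) k[X], F' = Matrix.of fun i j =>
    F i j * X ^ d j := ⟨_, rfl⟩
  have hFd : ∀ i j, (F' i j).natDegree ≤ W i := by
    intro i j
    rw [hF', hW]
    exact deg_le d (F i) j
  obtain ⟨c1, c2⟩ := det_coeff F' W hFd
  have hdF : F.det ≠ 0 := by
    rw [hF, det_mul]
    exact mul_ne_zero hU.ne_zero hE
  have hdF' : F'.det = F.det * X ^ (∑ j, d j) := by rw [hF']; exact det_mul_X F d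
  have hnat : F.det.natDegree = E.det.natDegree := by
    rw [hF, det_mul, natDegree_mul hU.ne_zero hE, natDegree_eq_zero_of_isUnit hU, zero_add]
  by_cases hL : (Matrix.of fun i j => (F' i j).coeff (W i)).det = 0
  · exfalso
    obtain ⟨c, hc0, hc⟩ := Matrix.exists_vecMul_eq_zero_iff.2 hL
    have hne : (Finset.univ.filter fun i => c i ≠ 0).Nonempty := by
      by_contra hh
      rw [Finset.not_nonempty_iff_eq_empty, Finset.filter_eq_empty_iff] at hh
      apply hc0
      ext i
      have := hh (Finset.mem_univ i)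
      push Not at this
      exact this
    obtain ⟨i, hi, himax⟩ := Finset.exists_max_image _ W hne
    rw [Finset.mem_filter] at hi
    have hci := hi.2
    have hmax : ∀ j, c j ≠ 0 → W j ≤ W i := fun j hj =>
      himax j (Finset.mem_filter.2 ⟨Finset.mem_univ j, hj⟩)
    obtain ⟨v, hv⟩ : ∃ v : Fin n → k[X], v = fun j => C (c j / c i) * X ^ (W i - W j) :=
      ⟨_, rfl⟩
    have hvi : v i = 1 := by
      rw [hv]
      simp [div_self hci]
    obtain ⟨U', hU'⟩ : ∃ U' : Matrix (Fin n) (Fin n) k[X],
      U' = U.updateRow i (∑ j, v j • U j) := ⟨_, rfl⟩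
    have hdU' : U'.det = U.det := by
      rw [hU', det_updateRow_sum, hvi, one_smul]
    have hU'E : U' * E = F.updateRow i (∑ j, v j • F j) := by
      rw [hU', hF]
      refine Matrix.ext fun a b => ?_
      rw [Matrix.mul_apply, Matrix.updateRow_apply]
      by_cases hab : a = i
      · rw [if_pos hab, hab]
        simp only [Matrix.updateRow_self, Finset.sum_apply, Pi.smul_apply, smul_eq_mul,
          Matrix.mul_apply, Finset.sum_mul, Finset.mul_sum]
        rw [Finset.sum_comm]
        refine Finset.sum_congr rfl fun x _ => Finset.sum_congr rfl fun y _ => ?_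
        ring
      · rw [if_neg hab, Matrix.mul_apply]
        refine Finset.sum_congr rfl fun x _ => ?_
        rw [Matrix.updateRow_ne hab]
    obtain ⟨R, hR⟩ : ∃ R : Fin n → k[X], R = ∑ j, v j • F j := ⟨_, rfl⟩
    rw [← hR] at hU'E
    -- the new row
    have hRdeg : ∀ b, (R b * X ^ d b).natDegree ≤ W i ∧ (R b * X ^ d b).coeff (W i) = 0 := by
      intro b
      have e : R b * X ^ d b = ∑ j, C (c j / c i) * (X ^ (W i - W j) * F' j b) := by
        rw [hR, Finset.sum_apply, Finset.sum_mul]
        refine Finset.sum_congr rfl fun j _ => ?_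
        rw [hv, hF', Pi.smul_apply, smul_eq_mul, Matrix.of_apply]
        ring
      have hterm : ∀ j, c j ≠ 0 → (X ^ (W i - W j) * F' j b).natDegree ≤ W i ∧
          (X ^ (W i - W j) * F' j b).coeff (W i) = (F' j b).coeff (W j) := by
        intro j hj
        have hji := hmax j hj
        constructor
        · refine natDegree_mul_le.trans ?_
          rw [natDegree_X_pow]
          have := hFd j b
          omega
        · have : W i = W j + (W i - W j) := by omega
          conv_lhs => rw [this]
          rw [show W j + (W i - W j) - W j = W i - W j by omega, coeff_X_pow_mul]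
      constructor
      · rw [e]
        apply natDegree_sum_le_of_forall_le
        intro j _
        by_cases hj : c j = 0
        · rw [hj, zero_div, C_0, zero_mul, natDegree_zero]; exact Nat.zero_le _
        · exact (natDegree_C_mul_le _ _).trans (hterm j hj).1
      · rw [e, finsetSum_coeff]
        have hz := congrFun hc b
        simp only [Matrix.vecMul, dotProduct, Matrix.of_apply, Pi.zero_apply] at hz
        have : ∑ j, (C (c j / c i) * (X ^ (W i - W j) * F' j b)).coeff (W i) =
            (∑ j, c j * (F' j b).coeff (W j)) / c i := by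
          rw [Finset.sum_div]
          refine Finset.sum_congr rfl fun j _ => ?_
          by_cases hj : c j = 0
          · rw [hj]; simp
          · rw [coeff_C_mul, (hterm j hj).2]; ring
        rw [this, hz, zero_div]
    have hRne : ∃ b, R b ≠ 0 := by
      by_contra hh
      push Not at hh
      have : (U' * E).det = 0 := by
        rw [hU'E]
        apply det_eq_zero_of_row_eq_zero i
        intro b
        rw [Matrix.updateRow_self]
        exact hh b
      rw [det_mul, hdU'] at this
      exact mul_ne_zero hU.ne_zero hE this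
    have hRlt : ∀ b, R b ≠ 0 → (R b).natDegree + d b < W i := by
      intro b hb
      obtain ⟨r1, r2⟩ := hRdeg b
      have e : (R b * X ^ d b).natDegree = (R b).natDegree + d b := by
        rw [natDegree_mul hb (pow_ne_zero _ X_ne_zero), natDegree_X_pow]
      have hne' : R b * X ^ d b ≠ 0 := mul_ne_zero hb (pow_ne_zero _ X_ne_zero)
      rw [← e]
      refine lt_of_le_of_ne r1 fun h => ?_
      rw [← h] at r2
      exact hne' (leadingCoeff_eq_zero.1 r2)
    obtain ⟨b, hb⟩ := hRne
    have hWi : 0 < W i := lt_of_le_of_lt (Nat.zero_le _) (hRlt b hb)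
    have hlt : wtn d R < W i := wtn_lt hWi hRlt
    have := hmin U' (by rw [hdU']; exact hU)
    rw [hU'E, ← hF] at this
    have e1 : ∑ a, wtn d (F.updateRow i R a) = ∑ a, (if a = i then wtn d R else W a) := by
      refine Finset.sum_congr rfl fun a _ => ?_
      by_cases ha : a = i
      · rw [if_pos ha, ha, Matrix.updateRow_self]
      · rw [if_neg ha, Matrix.updateRow_ne ha, hW]
    rw [e1] at this
    have e2 : ∑ a, (if a = i then wtn d R else W a) < ∑ a, wtn d (F a) := by
      apply Finset.sum_lt_sum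
      · intro a _
        split_ifs with ha
        · rw [ha]
          rw [hW] at hlt
          exact hlt.le
        · rw [hW]
      · refine ⟨i, Finset.mem_univ i, ?_⟩
        rw [if_pos rfl]
        rw [hW] at hlt
        exact hlt
    omega
  · have hdeg : F'.det.natDegree = ∑ i, W i := by
      apply le_antisymm c1
      apply le_natDegree_of_ne_zero
      rw [c2]
      exact hL
    rw [hdF', natDegree_mul hdF (pow_ne_zero _ X_ne_zero), natDegree_X_pow, hnat] at hdeg
    rw [hdeg, hW, hF]

end

theorem red : S_RED := by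
  classical
  intro n k _ d E hE
  have hex : ∃ m : ℕ, ∃ U : Matrix (Fin n) (Fin n) k[X], IsUnit U.det ∧
      ∑ i, wtn d ((U * E) i) = m := ⟨_, 1, by rw [det_one]; exact isUnit_one, rfl⟩
  obtain ⟨U, hU, hm⟩ := Nat.find_spec hex
  have hmin : ∀ V : Matrix (Fin n) (Fin n) k[X], IsUnit V.det →
      ∑ i, wtn d ((U * E) i) ≤ ∑ i, wtn d ((V * E) i) := by
    intro V hV
    rw [hm]
    exact Nat.find_min' hex ⟨V, hV, rfl⟩
  have hs := min_step d E U hE hU hmin
  obtain ⟨σ, hσ⟩ : ∃ σ : Equiv.Perm (Fin n), σ = Tuple.sort fun i => wtn d ((U * E) i) :=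
    ⟨_, rfl⟩
  have hmono : Monotone ((fun i => wtn d ((U * E) i)) ∘ σ) := by
    rw [hσ]; exact Tuple.monotone_sort _
  have hrow : ∀ i, (U.submatrix σ id * E) i = (U * E) (σ i) := by
    intro i
    refine funext fun j => ?_
    rw [Matrix.mul_apply, Matrix.mul_apply]
    rfl
  refine ⟨U.submatrix σ id, ?_, ?_, ?_⟩
  · rw [Matrix.det_permute]
    refine IsUnit.mul ?_ hU
    have := (Equiv.Perm.sign σ).isUnit
    exact (this.map (Int.castRingHom k[X]).toMonoidHom)
  · intro i j hij
    simp only [hrow]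
    exact hmono hij
  · simp only [hrow]
    rw [Equiv.sum_comp σ fun i => wtn d ((U * E) i)]
    exact hs

end Pool.Agent.N50.PJ
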